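import Pool.Agent.H.MP_6870a6_co.A

set_option autoImplicit false
open Polynomial LaurentPolynomial

namespace Pool.Agent.Results.MP_6870a6_co.Yes

/-- The symmetrisation x(q) x(1/q). -/
noncomputable def symm (x : ℤ[X]) : LaurentPolynomial ℤ := toLaurent x * invert (toLaurent x)

/-- d = q^(deg c) (q^s X + C) / (mirror image of r). -/
def Mut (s : ℤ) (x c r d : ℤ[X]) : Prop :=
  toLaurent d * toLaurent r.reverse = T c.natDegree * (T s * symm x + symm c)

/-- The vertex reached from t0 along the path w (last step first, true = left child)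
carries the triple (a,b,c) and its entering edge has sign s. -/
inductive At : List Bool → ℤ[X] → ℤ[X] → ℤ[X] → ℤ → Prop
  | root : At [] 1 (1 + X) (1 + 2 * X + 2 * X ^ 2) 1
  | left {w : List Bool} {a b c d : ℤ[X]} {s : ℤ} :
      At w a b c s → Mut s a c b d → At (true :: w) a c d s
  | right {w : List Bool} {a b c d : ℤ[X]} {s : ℤ} :
      At w a b c s → Mut (-s) b c a d → At (false :: w) b c d (-s)

theorem result :
    (∀ w, ∃! t : ℤ[X] × ℤ[X] × ℤ[X] × ℤ, At w t.1 t.2.1 t.2.2.1 t.2.2.2) ∧
    (∀ w a b c s, At w a b c s → c ≠ 1 ∧ c ≠ 1 + X) ∧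
    ∀ w w' a b c s a' b' c' s', At w a b c s → At w' a' b' c' s' → c = c' → w = w' := by
  have key : ∀ {w a b c s}, At w a b c s → Pool.Agent.H.MP_6870a6_co.NJ w a b c s := by
    intro w a b c s h
    induction h with
    | root => exact Pool.Agent.H.MP_6870a6_co.nj0
    | left _ hm ih =>
      obtain ⟨e, h1, h2⟩ := ih.left
      obtain ⟨-, -, -, -, -, -, -, pb, -⟩ := ih.1
      rwa [Pool.Agent.H.MP_99184a_co.Mu.uniq pb hm h1]
    | right _ hm ih =>
      obtain ⟨e, h1, h2⟩ := ih.right
      obtain ⟨-, -, -, -, -, -, pa, -⟩ := ih.1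
      rwa [Pool.Agent.H.MP_99184a_co.Mu.uniq pa hm h1]
  refine ⟨fun w => ?_, fun w a b c s h => ?_, ?_⟩
  · induction w with
    | nil =>
      refine ⟨(_, _, _, _), At.root, ?_⟩
      rintro ⟨a, b, c, s⟩ h
      cases h
      rfl
    | cons t w ih =>
      obtain ⟨⟨a, b, c, s⟩, h, hu⟩ := ih
      obtain ⟨-, -, -, -, -, -, pa, pb, -⟩ := (key h).1
      cases t
      · obtain ⟨d, h1, -⟩ := (key h).right
        refine ⟨(b, c, d, -s), At.right h h1, ?_⟩
        rintro ⟨a', b', c', s'⟩ h'
        cases h' with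
        | right k1 k2 =>
          have := hu (_, _, _, _) k1
          simp only [Prod.mk.injEq] at this
          obtain ⟨rfl, rfl, rfl, rfl⟩ := this
          have e : c' = d := Pool.Agent.H.MP_99184a_co.Mu.uniq pa k2 h1
          subst e
          rfl
      · obtain ⟨d, h1, -⟩ := (key h).left
        refine ⟨(a, c, d, s), At.left h h1, ?_⟩
        rintro ⟨a', b', c', s'⟩ h'
        cases h' with
        | @left _ _ b0 _ _ _ k1 k2 =>
          have := hu (a', b0, b', s') k1
          simp only [Prod.mk.injEq] at this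
          obtain ⟨rfl, rfl, rfl, rfl⟩ := this
          have e : c' = d := Pool.Agent.H.MP_99184a_co.Mu.uniq pb k2 h1
          subst e
          rfl
  · have h2 := (key h).deg
    have d1 : (1 + X : ℤ[X]).natDegree = 1 := by compute_degree!
    constructor
    · rintro rfl
      simp at h2
    · rintro rfl
      omega
  · rintro w w' a b c s a' b' c' s' h h' rfl
    exact (key h).inj (key h')

end Pool.Agent.Results.MP_6870a6_co.Yes
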